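import Pool.Agent.H343.QF.StL

set_option autoImplicit false
set_option linter.unusedSectionVars false

/-! # QF-L1: definability in standard frames (helper772) -/

namespace Pool.Agent.H772.QF

open Pool.Agent.H343.QF Pool.Agent.H.MP_c33acd_lc FirstOrder FirstOrder.Language

section md

variable {X : LS} {C : Cn} {α β : Type} {s t x1 x2 x3 x4 : Tm α β}

lemma MT_pow (h : MT X C α β t) (k : ℕ) : MT X C α β fun K _ a r v n => t K a r v n ^ k := by
  induction k with
  | zero => exact MD.congr MT.one fun K _ a r _ v n => by simp only [pow_zero]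
  | succ k ih => exact MD.congr (ih.mul h) fun K _ a r _ v n => by simp only [pow_succ]

lemma MT_blk (h1 : MT X C α β x1) (h2 : MT X C α β x2) (k : ℕ) :
    MT X C α β fun K _ a r v n => blk (x1 K a r v n) (x2 K a r v n) k := by
  induction k with
  | zero => exact MT.one
  | succ k ih => exact ih.mul ((MT_pow h2 (k + 1)).mul h1)

lemma MT_Sd (B : ℕ) (h1 : MT X C α β x1) (h2 : MT X C α β x2) (h3 : MT X C α β x3)
    (h4 : MT X C α β x4) :
    MT X C α β fun K _ a r v n => Sd B (x1 K a r v n) (x2 K a r v n) (x3 K a r v n)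
      (x4 K a r v n) :=
  (((h2.mul (MT_pow h1 3)).mul h3).mul (MT_pow h1 3)).mul (MT_blk (MT_pow h1 2) h4 B)

lemma D_CmR (h1 : MT X C α β x1) : MD X C α β fun K _ a r v n => CmR r (x1 K a r v n) :=
  MD.eq (h1.mul MT.r) (MT.r.mul h1)

lemma D_SqR (B : ℕ) (h1 : MT X C α β x1) (h2 : MT X C α β x2) :
    MD X C α β fun K _ a r v n => SqR B a r (x1 K a r v n) (x2 K a r v n) :=
  (D_CmR h1).and ((D_CmR h2).and (MD.ex ((D_CmR (MT.var _)).and
    (MD.eq (MT_Sd B MT.a (h1.rel _ _) (h2.rel _ _) (MT.var _)) MT.one))))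

lemma D_NmR (B : ℕ) (h1 : MT X C α β x1) :
    MD X C α β fun K _ a r v n => NmR B a r (x1 K a r v n) :=
  MD.ex (D_SqR B (h1.rel _ _) (MT.var _))

lemma D_MuR (B : ℕ) (h1 : MT X C α β x1) (h2 : MT X C α β x2) (h3 : MT X C α β x3) :
    MD X C α β fun K _ a r v n => MuR B a r (x1 K a r v n) (x2 K a r v n) (x3 K a r v n) :=
  MD.ex (MD.ex (MD.ex ((D_SqR B ((h1.rel _ _).mul (h2.rel _ _)) (MT.var _)).and
    ((D_SqR B (h1.rel _ _) (MT.var _)).and ((D_SqR B (h2.rel _ _) (MT.var _)).and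
      (MD.eq (MT.var _) ((((MT.var _).mul (MT.var _)).mul (h3.rel _ _)).mul (h3.rel _ _))))))))

end md

section std

variable {K : Type} [Group K] {B : ℕ} {b r : K}

theorem zpow_inj' (hc : StdR B b r) {i j : ℤ} : r ^ i = r ^ j ↔ i = j := by
  constructor
  · intro h
    have h1 := hc.inj (i - j) (by rw [zpow_sub, h, mul_inv_cancel])
    omega
  · intro h
    rw [h]

theorem num (hc : StdR B b r) (x : K) : NmR B b r x ↔ ∃ n : ℕ, x = r ^ n := by
  constructor
  · rintro ⟨z, hz⟩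
    obtain ⟨e, rfl⟩ := (hc.cm x).1 hz.1
    obtain ⟨f, rfl⟩ := (hc.cm z).1 hz.2.1
    obtain ⟨t, ht, _⟩ := (hc.sq e f).1 hz
    exact ⟨t, by rw [ht, zpow_natCast]⟩
  · rintro ⟨n, rfl⟩
    refine ⟨r ^ ((n : ℤ) ^ 2), ?_⟩
    have := (hc.sq n ((n : ℤ) ^ 2)).2 ⟨n, rfl, rfl⟩
    rwa [zpow_natCast] at this

theorem sqn (hc : StdR B b r) (n : ℕ) (s : K) : SqR B b r (r ^ n) s ↔ s = r ^ ((n : ℤ) ^ 2) := by
  constructor
  · intro h
    obtain ⟨f, rfl⟩ := (hc.cm s).1 h.2.1
    have h1 := h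
    rw [← zpow_natCast] at h1
    obtain ⟨t, ht, hf⟩ := (hc.sq n f).1 h1
    rw [hf, ht]
  · rintro rfl
    have := (hc.sq n ((n : ℤ) ^ 2)).2 ⟨n, rfl, rfl⟩
    rwa [zpow_natCast] at this

theorem mu (hc : StdR B b r) (x y z : ℕ) :
    MuR B b r (r ^ x) (r ^ y) (r ^ z) ↔ x * y = z := by
  unfold MuR
  rw [← pow_add]
  simp only [sqn hc]
  constructor
  · rintro ⟨_, _, _, rfl, rfl, rfl, h⟩
    rw [← zpow_natCast, ← zpow_add, ← zpow_add, ← zpow_add, zpow_inj' hc] at h
    push_cast at h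
    have h1 : (x : ℤ) * y = z := by nlinarith
    exact_mod_cast h1
  · rintro rfl
    refine ⟨_, _, _, rfl, rfl, rfl, ?_⟩
    rw [← zpow_natCast, ← zpow_add, ← zpow_add, ← zpow_add, zpow_inj' hc]
    push_cast
    ring

end std

lemma exN (B : ℕ) {X : LS} {α β : Type}
    {P : ∀ (K : Type) [Group K], K → K → ℕ → (α → K) → (β → ℕ) → Prop}
    (h : MD X (CR B) α (Option β) fun K _ a r v m => P K a r (m none) v fun j => m (some j)) :
    MD X (CR B) α β fun K _ a r v n => ∃ x, P K a r x v n := by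
  obtain ⟨φ, hφ⟩ := h
  let g : Bool ⊕ α ⊕ Option β → Bool ⊕ Option α ⊕ β := Sum.elim Sum.inl (Sum.elim
    (fun i => Sum.inr (Sum.inl (some i))) fun o => o.elim (Sum.inr (Sum.inl none))
      fun j => Sum.inr (Sum.inr j))
  have h1 : MD X (CR B) (Option α) β fun K _ a r w n => Rl X φ K fun i => val a r w n (g i) :=
    ⟨ren φ g, fun K _ a r _ w n => Rl_ren _ _ _ _⟩
  have h2 := MD.ex (X := X) (C := CR B) (P := fun K _ a r x v n => NmR B a r x ∧
    Rl X φ K fun i => val a r (fun o : Option α => o.elim x v) n (g i))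
    ((D_NmR B (MT.var none)).and (h1.congr fun K _ a r _ w n => by
      apply iff_of_eq; congr 1; ext i
      rcases i with i | i | (_ | i) <;> rfl))
  refine h2.congr fun K _ a r hc v n => ?_
  have h3 : ∀ x : ℕ, (Rl X φ K fun i => val a r (fun o : Option α => o.elim (r ^ x) v) n (g i)) ↔
      P K a r x v n := by
    intro x
    refine Iff.trans ?_ (hφ K a r hc v fun o => o.elim x n)
    apply iff_of_eq; congr 1; ext i
    rcases i with i | i | (_ | i) <;> rfl
  simp only [num hc]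
  exact ⟨by rintro ⟨_, ⟨x, rfl⟩, h⟩; exact ⟨x, (h3 x).mp h⟩,
    fun ⟨x, h⟩ => ⟨_, ⟨x, rfl⟩, (h3 x).mpr h⟩⟩

lemma ar (B : ℕ) {X : LS} {α β : Type} {Q : (β → ℕ) → Prop} (h : Ar β Q) :
    MD X (CR B) α β fun _ _ _ _ _ n => Q n := by
  induction h with
  | add i j k =>
    exact (MD.eq ((MT.num i).mul (MT.num j)) (MT.num k)).congr fun K _ a r hc v n => by
      rw [← pow_add, ← zpow_natCast, ← zpow_natCast, zpow_inj' hc]
      exact_mod_cast Iff.rfl
  | mul i j k =>
    refine (D_MuR B (MT.num i) (MT.num j) (MT.num k)).congr fun K _ a r hc v n => ?_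
    rw [mu hc]
  | not _ ih => exact ih.not
  | and _ _ ih ih' => exact ih.and ih'
  | @ex0 β P _ ih =>
    exact exN B (P := fun _ _ _ _ x _ n => P fun o => o.elim x n)
      (ih.congr fun _ _ _ _ _ _ n => by
        apply iff_of_eq; congr 1; ext i; cases i <;> rfl)

theorem frame : S_frame := by
  intro B X α β
  exact ⟨fun h => ar B h, fun h => exN B h⟩

end Pool.Agent.H772.QF
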